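import Pool.Agent.Helper89.OS.St1

/-! # Project OS (MP_2b6189_al): module XC, the torus -/

set_option autoImplicit false

namespace Pool.Agent.Helper30.OS

open Matrix ComplexConjugate Pool.Agent.Helper94.YF Pool.Agent.Helper94.YG Pool.Agent.Helper89.OS

private lemma mulL {I : Type} [Fintype I] [DecidableEq I] (Z : CentreData I)
    (Pi : (ZMod Z.L)ˣ → I → I)
    (prm : ∀ c i k, Z.rho (Dg c) i k = if k = Pi c i then 1 else 0)
    (c : (ZMod Z.L)ˣ) (M : Matrix I I ℂ) (i k : I) :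
    (Z.rho (Dg c) * M) i k = M (Pi c i) k := by
  rw [Matrix.mul_apply]
  rw [Finset.sum_eq_single (Pi c i)]
  · rw [prm, if_pos rfl, one_mul]
  · intro l _ hl
    rw [prm, if_neg hl, zero_mul]
  · intro h; exact absurd (Finset.mem_univ _) h

private lemma piMul {I : Type} [Fintype I] [DecidableEq I] (Z : CentreData I)
    (Pi : (ZMod Z.L)ˣ → I → I)
    (prm : ∀ c i k, Z.rho (Dg c) i k = if k = Pi c i then 1 else 0)
    (g12 : ∀ c c' : (ZMod Z.L)ˣ, (Dg (c * c') : SL Z.L) = Dg c * Dg c')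
    (c c' : (ZMod Z.L)ˣ) (i : I) : Pi (c * c') i = Pi c' (Pi c i) := by
  have h : Z.rho (Dg (c * c')) i (Pi (c * c') i) = (Z.rho (Dg c) * Z.rho (Dg c')) i (Pi (c * c') i) := by
    rw [g12, map_mul]
  rw [mulL Z Pi prm, prm, if_pos rfl, prm] at h
  by_contra hne
  rw [if_neg hne] at h
  exact one_ne_zero h

private lemma piOne {I : Type} [Fintype I] [DecidableEq I] (Z : CentreData I)
    (Pi : (ZMod Z.L)ˣ → I → I)
    (prm : ∀ c i k, Z.rho (Dg c) i k = if k = Pi c i then 1 else 0)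
    (g13 : (Dg (1 : (ZMod Z.L)ˣ) : SL Z.L) = 1) (i : I) : Pi 1 i = i := by
  have h : Z.rho (Dg 1) i i = (1 : Matrix I I ℂ) i i := by
    rw [g13, map_one]
  rw [prm, Matrix.one_apply_eq] at h
  by_contra hne
  rw [if_neg (fun h' => hne h'.symm)] at h
  exact zero_ne_one h

private lemma mulR {I : Type} [Fintype I] [DecidableEq I] (Z : CentreData I)
    (Pi : (ZMod Z.L)ˣ → I → I)
    (prm : ∀ c i k, Z.rho (Dg c) i k = if k = Pi c i then 1 else 0)
    (c c' : (ZMod Z.L)ˣ) (h1 : ∀ i, Pi c (Pi c' i) = i) (h2 : ∀ i, Pi c' (Pi c i) = i)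
    (M : Matrix I I ℂ) (i k : I) :
    (M * Z.rho (Dg c)) i k = M i (Pi c' k) := by
  rw [Matrix.mul_apply]
  rw [Finset.sum_eq_single (Pi c' k)]
  · rw [prm, h1, if_pos rfl, mul_one]
  · intro l _ hl
    rw [prm, if_neg, mul_zero]
    intro h
    apply hl
    rw [h, h2]
  · intro h; exact absurd (Finset.mem_univ _) h

private lemma rhoInv {I : Type} [Fintype I] [DecidableEq I] (Z : CentreData I) (g : SL Z.L) (i k : I) :
    conj (Z.rho g i k) = Z.rho g⁻¹ k i := by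
  have h1 := Z.unitary g
  have h2 : Z.rho g⁻¹ * Z.rho g = 1 := by
    rw [← map_mul, inv_mul_cancel, map_one]
  have h3 : Z.rho g * Z.rho g⁻¹ = 1 := by
    rw [← map_mul, mul_inv_cancel, map_one]
  have h4 : (Z.rho g)ᴴ = Z.rho g⁻¹ := by
    calc (Z.rho g)ᴴ = (Z.rho g)ᴴ * (Z.rho g * Z.rho g⁻¹) := by rw [h3, mul_one]
      _ = ((Z.rho g)ᴴ * Z.rho g) * Z.rho g⁻¹ := by rw [mul_assoc]
      _ = Z.rho g⁻¹ := by rw [h1, one_mul]
  rw [← h4, Matrix.conjTranspose_apply]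
  rfl

private lemma valMod {L P : ℕ} (b : ZMod L) (hP : (P : ZMod L) * b = 0) (k : ℕ) :
    ((k % P : ℕ) : ZMod L) * b = (k : ZMod L) * b := by
  conv_rhs => rw [← Nat.div_add_mod k P]
  push_cast
  linear_combination (-((k / P : ℕ) : ZMod L)) * hP

private lemma s2ent {L : ℕ} (b : ZMod L) (hb : b * b = b) :
    (s2 b : SL L) 0 0 = 1 - b ∧ (s2 b : SL L) 0 1 = -b ∧ (s2 b : SL L) 1 0 = b ∧
      (s2 b : SL L) 1 1 = 1 - b := by
  refine ⟨?_, ?_, ?_, ?_⟩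
  · simp [s2, U, Lo]
    linear_combination (-1 : ZMod L) * hb
  · simp [s2, U, Lo]
    linear_combination (-b - 1 : ZMod L) * hb
  · simp [s2, U, Lo]
  · simp [s2, U, Lo]
    linear_combination (-1 : ZMod L) * hb

theorem hXC : StXC := by
  intro hFUS hDUA hAUT hGRP hENT I _ _ Z p a m b j tu Pi y z hC
  obtain ⟨hU, hthL, htwadd, htw0, htw1, htwo, htwc, -, -, -, -⟩ := hFUS hDUA I Z.toCentreRep
  obtain ⟨g1, g2, g3, g4, g5, g6, g7, g8, g9, g10, g11, g12, g13⟩ :=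
    hGRP Z.L (p ^ a) b j tu hC.idp.idem hC.jh hC.tu_val hC.tu_mul
  obtain ⟨hsym, -⟩ := hENT hFUS hDUA I Z.toCentreRep b
  have hb := hC.idp.idem
  have prm := hC.prm
  have jh := hC.jh
  -- the map tu
  have tu1 : tu 1 = 1 := by
    apply Units.ext
    rw [hC.tu_val]
    have : ((1 : (ZMod (p ^ a))ˣ) : ZMod (p ^ a)) = 1 := rfl
    rw [this, jh.one]
    simp
  have pmul := piMul Z Pi prm g12
  have pone := piOne Z Pi prm g13
  have c1 : ∀ i, Pi (tu 1) i = i := by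
    intro i; rw [tu1]; exact pone i
  have c2 : ∀ (c c' : (ZMod (p ^ a))ˣ) (i : I), Pi (tu (c * c')) i = Pi (tu c) (Pi (tu c') i) := by
    intro c c' i
    rw [mul_comm c c', hC.tu_mul, pmul]
  have inv1 : ∀ (w : (ZMod (p ^ a))ˣ) (i : I), Pi (tu w) (Pi (tu w⁻¹) i) = i := by
    intro w i
    rw [← c2, mul_inv_cancel, c1]
  have inv2 : ∀ (w : (ZMod (p ^ a))ˣ) (i : I), Pi (tu w⁻¹) (Pi (tu w) i) = i := by
    intro w i
    rw [← c2, inv_mul_cancel, c1]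
  have mL : ∀ (w : (ZMod (p ^ a))ˣ) (M : Matrix I I ℂ) (i k : I),
      (Z.rho (Dg (tu w)) * M) i k = M (Pi (tu w) i) k := fun w M i k => mulL Z Pi prm (tu w) M i k
  have mR : ∀ (w : (ZMod (p ^ a))ˣ) (M : Matrix I I ℂ) (i k : I),
      (M * Z.rho (Dg (tu w))) i k = M i (Pi (tu w⁻¹) k) := fun w M i k =>
    mulR Z Pi prm (tu w) (tu w⁻¹) (inv1 w) (inv2 w) M i k
  have mO : ∀ (w : (ZMod Z.L)ˣ) (M : Matrix I I ℂ) (i : I),
      (M * Z.rho (Dg w)) i Z.o = M i Z.o := by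
    intro w M i
    rw [Matrix.mul_apply, Finset.sum_eq_single Z.o]
    · rw [Z.borel, if_pos rfl, mul_one]
    · intro l _ hl
      rw [Z.borel, if_neg hl, mul_zero]
    · intro h; exact absurd (Finset.mem_univ _) h
  have c3 : ∀ c, Pi (tu c) Z.o = Z.o := by
    intro c
    have h1 := Z.borel (tu c) Z.o
    rw [if_pos rfl, prm] at h1
    by_contra hne
    rw [if_neg (fun h' => hne h'.symm)] at h1
    exact zero_ne_one h1
  have hn : (Z.n : ℂ) ≠ 0 := by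
    have := Z.n_pos
    exact_mod_cast this.ne'
  have c4 : ∀ c i, Z.d (Pi (tu c) i) = Z.d i := by
    intro c i
    obtain ⟨σ, hσ⟩ := hAUT I Z.toCentreRep (tu c)
    have h1 := hσ Sm (Dg (tu c) * Sm) (by simp [Dg, Sm]) (by simp [Dg, Sm])
      (by simp [Dg, Sm]) (by simp [Dg, Sm]) i Z.o
    rw [map_mul, mL, Z.s_symm, Z.s_o, Z.s_symm, Z.s_o] at h1
    rw [map_div₀, map_natCast, map_natCast] at h1
    have h2 : (Z.d (Pi (tu c) i) : ℂ) = Z.d i := by
      field_simp at h1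
      exact h1
    exact_mod_cast h2
  have hp : (p : ℂ) ≠ 0 := by
    have := hC.prime.pos
    exact_mod_cast this.ne'
  have c5 : ∀ c i, y (Pi (tu c) i) = y i := by
    intro c i
    have h1 : Z.rho (Dg (tu c) * s2 b) i Z.o = Z.rho (s2 b * Dg (tu c⁻¹)) i Z.o := by rw [g8]
    rw [map_mul, map_mul, mL, mO] at h1
    have h2 : (y (Pi (tu c) i) : ℂ) = y i := by
      rw [hC.yy, hC.yy, h1]
    exact_mod_cast h2
  have c6 : ∀ c i, z (Pi (tu c) i) = z i := by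
    intro c i
    have h1 : Z.rho (Dg (tu c) * s2 (1 - b)) i Z.o = Z.rho (s2 (1 - b) * Dg (tu c)) i Z.o := by rw [g9]
    rw [map_mul, map_mul, mL, mO] at h1
    have h2 : (z (Pi (tu c) i) : ℂ) = z i := by
      rw [hC.zz, hC.zz, h1]
    exact_mod_cast h2
  -- the twists
  have twk : ∀ (k : ℕ) (i : I), Z.tw ((k : ZMod Z.L) * b) i = Z.tw b i ^ k := by
    intro k i
    induction k with
    | zero => simp [htw0]
    | succ k ih =>
      have : ((k + 1 : ℕ) : ZMod Z.L) * b = (k : ZMod Z.L) * b + b := by push_cast; ring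
      rw [this, htwadd, ih, pow_succ]
  have twj : ∀ (x : ZMod (p ^ a)) (i : I), Z.tw (j x) i = Z.tw b i ^ x.val := by
    intro x i
    rw [jh.val, twk]
  have bj : ∀ x, b * j x = j x := by
    intro x
    rw [← jh.one, ← jh.mul, one_mul]
  have hU' : ∀ x, Z.rho (U x) = Matrix.diagonal (Z.tw x) := hU
  have c7 : ∀ (c : (ZMod (p ^ a))ˣ) (i : I),
      Z.tw b (Pi (tu c) i) = Z.tw b i ^ ((c : ZMod (p ^ a)) ^ 2).val := by
    intro c i
    have h1 : Z.rho (Dg (tu c) * U b) i (Pi (tu c) i) =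
        Z.rho (U (((tu c : (ZMod Z.L)ˣ) : ZMod Z.L) ^ 2 * b) * Dg (tu c)) i (Pi (tu c) i) := by rw [g10]
    rw [map_mul, map_mul, mL, mR, inv2, hU', hU', Matrix.diagonal_apply_eq,
      Matrix.diagonal_apply_eq] at h1
    have h2 : ((tu c : (ZMod Z.L)ˣ) : ZMod Z.L) ^ 2 * b = j ((c : ZMod (p ^ a)) ^ 2) := by
      rw [hC.tu_val, pow_two (c : ZMod (p ^ a)), jh.mul]
      linear_combination (-1 + b - 2 * j c : ZMod Z.L) * hb + (j c) * bj c
    rw [h1, h2, twj]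
  have c8 : ∀ c i k, Z.rho (s2 b) (Pi (tu c) i) k = Z.rho (s2 b) i (Pi (tu c) k) := by
    intro c i k
    have h1 : Z.rho (Dg (tu c) * s2 b) i k = Z.rho (s2 b * Dg (tu c⁻¹)) i k := by rw [g8]
    rw [map_mul, map_mul, mL, mR, inv_inv] at h1
    exact h1
  have c9 : ∀ i k, conj (Z.rho (s2 b) i k) = Z.rho (s2 b) i (Pi (tu (-1)) k) := by
    intro i k
    have hm : ((-1 : (ZMod (p ^ a))ˣ))⁻¹ = -1 := by simp
    rw [rhoInv, g4, map_mul, mR, hm, hsym, c8]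
  have hLne : NeZero Z.L := ⟨Z.L_pos.ne'⟩
  have hPne : NeZero (p ^ a) := ⟨(pow_pos hC.prime.pos a).ne'⟩
  have hPL : p ^ a ∣ Z.L := by
    obtain ⟨L', h, -, -⟩ := hC.idp.ex
    exact ⟨L', h⟩
  have c10 : ∀ σ : ℂ ≃+* ℂ, ∃ c, ∀ i k, σ (Z.rho (s2 b) i k) = Z.rho (s2 b) i (Pi (tu c) k) := by
    intro σ
    obtain ⟨c0, hc0⟩ := Z.galois σ
    obtain ⟨v, hv⟩ : ∃ v : (ZMod (p ^ a))ˣ, (v : ZMod (p ^ a)) =
        (((c0 : ZMod Z.L).val : ℕ) : ZMod (p ^ a)) := by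
      refine ⟨Units.map (ZMod.castHom hPL (ZMod (p ^ a))).toMonoidHom c0, ?_⟩
      simp only [Units.coe_map]
      show (ZMod.castHom hPL (ZMod (p ^ a))) (c0 : ZMod Z.L) = _
      rw [ZMod.castHom_apply, ZMod.natCast_val]
    have hjv : j v = (c0 : ZMod Z.L) * b := by
      rw [jh.val, hv, ZMod.val_natCast, valMod b (by exact_mod_cast hC.idp.ann)]
      rw [ZMod.natCast_zmod_val]
    have hjv' : (c0 : ZMod Z.L) * j ((v⁻¹ : (ZMod (p ^ a))ˣ) : ZMod (p ^ a)) = b := by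
      have e1 : j (v : ZMod (p ^ a)) * j ((v⁻¹ : (ZMod (p ^ a))ˣ) : ZMod (p ^ a)) = b := by
        rw [← jh.mul, Units.mul_inv, jh.one]
      have e2 := bj ((v⁻¹ : (ZMod (p ^ a))ˣ) : ZMod (p ^ a))
      rw [hjv] at e1
      linear_combination e1 - (c0 : ZMod Z.L) * e2
    obtain ⟨s00, s01, s10, s11⟩ := s2ent b hb
    have t1 : ((tu v⁻¹ : (ZMod Z.L)ˣ) : ZMod Z.L) =
        (1 - b) + j ((v⁻¹ : (ZMod (p ^ a))ˣ) : ZMod (p ^ a)) := hC.tu_val _
    have t2 : (((tu v⁻¹)⁻¹ : (ZMod Z.L)ˣ) : ZMod Z.L) = (1 - b) + j (v : ZMod (p ^ a)) := by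
      have : (tu v⁻¹)⁻¹ = tu v := by
        rw [inv_eq_iff_mul_eq_one, ← hC.tu_mul, inv_mul_cancel, tu1]
      rw [this, hC.tu_val]
    have d00 : (Dg (tu v⁻¹) : SL Z.L) 0 0 = (1 - b) + j ((v⁻¹ : (ZMod (p ^ a))ˣ) : ZMod (p ^ a)) := by
      rw [← t1]; simp [Dg]
    have d01 : (Dg (tu v⁻¹) : SL Z.L) 0 1 = 0 := by simp [Dg]
    have d10 : (Dg (tu v⁻¹) : SL Z.L) 1 0 = 0 := by simp [Dg]
    have d11 : (Dg (tu v⁻¹) : SL Z.L) 1 1 = (1 - b) + j (v : ZMod (p ^ a)) := by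
      rw [← t2]; simp [Dg]
    have e1 := bj ((v⁻¹ : (ZMod (p ^ a))ˣ) : ZMod (p ^ a))
    have e2 := bj (v : ZMod (p ^ a))
    refine ⟨v, fun i k => ?_⟩
    have h1 := hc0 (s2 b) (s2 b * Dg (tu v⁻¹)) (by
      rw [Matrix.SpecialLinearGroup.coe_mul, Matrix.mul_apply, Fin.sum_univ_two, s00, s01, d00, d10]
      linear_combination hb - e1) (by
      rw [Matrix.SpecialLinearGroup.coe_mul, Matrix.mul_apply, Fin.sum_univ_two, s00, s01, d01, d11]
      linear_combination hb - e2 - hjv) (by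
      rw [Matrix.SpecialLinearGroup.coe_mul, Matrix.mul_apply, Fin.sum_univ_two, s10, s11, d00, d10]
      linear_combination (-(c0 : ZMod Z.L)) * hb + (c0 : ZMod Z.L) * e1 + hjv') (by
      rw [Matrix.SpecialLinearGroup.coe_mul, Matrix.mul_apply, Fin.sum_univ_two, s10, s11, d01, d11]
      linear_combination hb - e2) i k
    rw [← h1, map_mul, mR, inv_inv]
  have c11 : ∀ i k, ∑ l, Z.rho (s2 b) i l * Z.rho (s2 b) l k =
      if i = Pi (tu (-1)) k then 1 else 0 := by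
    intro i k
    rw [← Matrix.mul_apply, ← map_mul, g3, prm]
    have hm : ∀ i, Pi (tu (-1)) (Pi (tu (-1)) i) = i := by
      intro i
      rw [← c2]
      have : (-1 : (ZMod (p ^ a))ˣ) * (-1) = 1 := by simp
      rw [this, c1]
    by_cases h : k = Pi (tu (-1)) i
    · rw [if_pos h, if_pos]
      rw [h, hm]
    · rw [if_neg h, if_neg]
      intro h'
      apply h
      rw [h', hm]
  have jneg : ∀ x, -(j x) = j (-x) := by
    intro x
    have h1 := jh.add x (-x)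
    rw [add_neg_cancel, jh.zero] at h1
    linear_combination (-1 : ZMod Z.L) * (-h1)
  have c12 : ∀ (w : (ZMod (p ^ a))ˣ) (i k : I),
      ∑ l, Z.tw b l ^ (w : ZMod (p ^ a)).val * (Z.rho (s2 b) i l * Z.rho (s2 b) l k) =
      (Z.tw b i ^ (-((w⁻¹ : (ZMod (p ^ a))ˣ) : ZMod (p ^ a))).val *
        Z.tw b k ^ (-((w⁻¹ : (ZMod (p ^ a))ˣ) : ZMod (p ^ a))).val) *
        Z.rho (s2 b) i (Pi (tu w⁻¹) k) := by
    intro w i k
    have h1 : Z.rho (s2 b * U (j w) * s2 b) i k =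
        Z.rho (U (-(j ((w⁻¹ : (ZMod (p ^ a))ˣ) : ZMod (p ^ a)))) * s2 b *
    Dg (tu w) * U (-(j ((w⁻¹ : (ZMod (p ^ a))ˣ) : ZMod (p ^ a))))) i k := by rw [g7]
    rw [map_mul, map_mul, map_mul, map_mul, map_mul, hU', hU', Matrix.mul_diagonal, mR,
      Matrix.diagonal_mul, Matrix.mul_apply, jneg, twj, twj] at h1
    have h2 : ∑ l, Z.tw b l ^ (w : ZMod (p ^ a)).val * (Z.rho (s2 b) i l * Z.rho (s2 b) l k) =
        ∑ l, (Z.rho (s2 b) * Matrix.diagonal (Z.tw (j w))) i l * Z.rho (s2 b) l k := by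
      apply Finset.sum_congr rfl
      intro l _
      rw [Matrix.mul_diagonal, twj]
      ring
    rw [h2, h1]
    ring
  exact ⟨c1, c2, c3, c4, c5, c6, c7, c8, c9, c10, c11, c12⟩

end Pool.Agent.Helper30.OS
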